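import Mathlib
import Pool.Agent.R439.ExpF

set_option autoImplicit false

namespace Pool.Agent.Results.MP_594717_nt.ExponentFormula

open Finset Polynomial Pool.Agent.R439

/-- `A ≡ B (mod P^2)` for polynomials `A`, `B` in `x` over `ℚ(q)` and a polynomial `P` in `q`:
`A - B = P^2 U/V` with `U, V` polynomials in `q` and `x`, `V` nonzero and without common factor
with `P`. -/
def CongRat (P : ℚ[X]) (A B : K[X]) : Prop :=
  ∃ U V : ℚ[X][X], V ≠ 0 ∧ IsRelPrime V (C P) ∧
    V.map (algebraMap ℚ[X] K) * (A - B) = C (algebraMap ℚ[X] K P) ^ 2 * U.map (algebraMap ℚ[X] K)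

/-- The congruence `(*)` for the exponent `f`, modulo `[p]^2`, `[p] = 1 + q + ⋯ + q^(p-1)`. -/
def StarCong (p m r : ℕ) (f : ℤ) : Prop :=
  CongRat (∑ i ∈ range p, X ^ i) (SS p m r) (RHS p m r f)

section
variable {p : ℕ} [Fact p.Prime]

theorem I_of_P {k : ℕ} {y : K} (hy : y ∈ O p) : I p k (emb (cyclotomic p ℚ) ^ k * y) := by
  obtain ⟨W, hW, hw⟩ := w_emb (n := p)
  have hW0 : emb W ≠ 0 := emb_ne fun h => hW (h ▸ dvd_zero _)
  refine ⟨(emb W)⁻¹ ^ k * y, mul_mem (pow_mem (emb_inv_mem hW) _) hy, ?_⟩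
  rw [hw, mul_pow, inv_pow]
  field_simp

theorem clear_sum {k : ℕ} {ι : Type*} (s : Finset ι) (f : ι → K[X])
    (h : ∀ i ∈ s, ∃ V : ℚ[X], ∃ U : ℚ[X][X], ¬ cyclotomic p ℚ ∣ V ∧
      C (emb V) * f i = C (emb (cyclotomic p ℚ)) ^ k * U.map emb) :
    ∃ V : ℚ[X], ∃ U : ℚ[X][X], ¬ cyclotomic p ℚ ∣ V ∧
      C (emb V) * ∑ i ∈ s, f i = C (emb (cyclotomic p ℚ)) ^ k * U.map emb := by
  classical
  induction s using Finset.induction_on with
  | empty =>
    exact ⟨1, 0, fun h => (P_prime p).not_isUnit (isUnit_of_dvd_one h), by simp⟩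
  | insert a s ha ih =>
    obtain ⟨V, U, hV, e⟩ := h a (mem_insert_self _ _)
    obtain ⟨V', U', hV', e'⟩ := ih fun i hi => h i (mem_insert_of_mem hi)
    refine ⟨V * V', C V' * U + C V * U', fun hd => ?_, ?_⟩
    · rcases (P_prime p).dvd_or_dvd hd with hd | hd
      · exact hV hd
      · exact hV' hd
    · rw [sum_insert ha, map_mul, C_mul, Polynomial.map_add, Polynomial.map_mul,
        Polynomial.map_mul, map_C, map_C]
      linear_combination (C (emb V')) * e + C (emb V) * e'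

theorem clear {k : ℕ} (D : K[X]) (h : ∀ j, I p k (D.coeff j)) :
    ∃ V : ℚ[X], ∃ U : ℚ[X][X], ¬ cyclotomic p ℚ ∣ V ∧
      C (emb V) * D = C (emb (cyclotomic p ℚ)) ^ k * U.map emb := by
  have hD := D.as_sum_support_C_mul_X_pow
  rw [hD]
  apply clear_sum
  intro i _
  obtain ⟨W, hW, hw⟩ := w_emb (n := p)
  obtain ⟨y, ⟨U, V, hV, rfl⟩, hy⟩ := h i
  have hV0 : emb V ≠ 0 := emb_ne fun h => hV (h ▸ dvd_zero _)
  refine ⟨V, C (W ^ k * U) * X ^ i, hV, ?_⟩
  rw [hy, hw, Polynomial.map_mul, map_C, Polynomial.map_pow, map_X, ← C_pow]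
  rw [← mul_assoc (C (emb V)), ← mul_assoc (C (emb (cyclotomic p ℚ) ^ k)), ← C_mul, ← C_mul]
  congr 2
  change emb V * ((emb (cyclotomic p ℚ) * emb W) ^ k * (emb U / emb V)) =
    emb (cyclotomic p ℚ) ^ k * emb (W ^ k * U)
  rw [map_mul, map_pow, mul_pow]
  field_simp

theorem rat_of_XI {A B : K[X]} (h : XI p A B) : CongRat (∑ i ∈ range p, X ^ i) A B := by
  obtain ⟨V, U, hV, e⟩ := clear (k := 2) (A - B) (fun j => by rw [coeff_sub]; exact h j)
  refine ⟨U, C V, ?_, ?_, ?_⟩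
  · rw [Ne, C_eq_zero]; rintro rfl; exact hV (dvd_zero _)
  · rw [← cyc_p]
    have hpr : Prime (C (cyclotomic p ℚ) : ℚ[X][X]) := prime_C_iff.2 (P_prime p)
    apply IsRelPrime.symm
    rw [hpr.irreducible.isRelPrime_iff_not_dvd]
    rw [C_dvd_iff_dvd_coeff]
    intro hd
    have := hd 0
    rw [coeff_C_zero] at this
    exact hV this
  · rw [map_C, ← cyc_p]; exact e

theorem XI_of_rat {A B : K[X]} (hO : ∀ j, (A - B).coeff j ∈ O p)
    (h : CongRat (∑ i ∈ range p, X ^ i) A B) : XI p A B := by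
  obtain ⟨U', V', hV'0, hrel, e'⟩ := h
  rw [← cyc_p] at hrel e'
  have hpr : Prime (C (cyclotomic p ℚ) : ℚ[X][X]) := prime_C_iff.2 (P_prime p)
  have hnd : ¬ C (cyclotomic p ℚ) ∣ V' := by
    rw [← hpr.irreducible.isRelPrime_iff_not_dvd]; exact hrel.symm
  obtain ⟨V, D0, hV, e⟩ := clear (k := 0) (A - B) (fun j => I_zero_iff.2 (hO j))
  rw [pow_zero, one_mul] at e
  have hV0 : emb V ≠ 0 := emb_ne fun h => hV (h ▸ dvd_zero _)
  have h1 : V' * D0 = C (cyclotomic p ℚ) ^ 2 * (C V * U') := by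
    apply Polynomial.map_injective emb emb_inj
    rw [Polynomial.map_mul, Polynomial.map_mul, Polynomial.map_mul, Polynomial.map_pow, map_C,
      map_C, ← e]
    linear_combination (C (emb V)) * e'
  obtain ⟨D1, hD1⟩ := hpr.pow_dvd_of_dvd_mul_left 2 hnd ⟨_, h1⟩
  intro j
  rw [← coeff_sub]
  have h2 := congrArg (fun P : K[X] => P.coeff j) e
  simp only [coeff_C_mul, coeff_map] at h2
  rw [hD1, ← C_pow, coeff_C_mul, map_mul, map_pow] at h2
  have h3 : (A - B).coeff j = emb (cyclotomic p ℚ) ^ 2 * (emb (D1.coeff j) * (emb V)⁻¹) := by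
    have : (A - B).coeff j = (emb V)⁻¹ * (emb V * (A - B).coeff j) := by
      rw [← mul_assoc, inv_mul_cancel₀ hV0, one_mul]
    rw [this]
    change (emb V)⁻¹ * (emb V * (A - B).coeff j) = _
    rw [show emb V * (A - B).coeff j = _ from h2]
    ring
  rw [h3]
  exact I_of_P (mul_mem (emb_mem _) (emb_inv_mem hV))

theorem Aff_mem {g : ℤ → K} (hg : Aff p g) (s : ℤ) : g s ∈ O p := by
  obtain ⟨L, hL, h0, H⟩ := hg.lin
  have := (H s).mem
  have h2 := add_mem this (add_mem h0 (mul_mem w_mem (hL s)))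
  simpa using h2

theorem diff_mem {m r : ℕ} (hm : ¬ p ∣ m) (f : ℤ) (j : ℕ) :
    (SS p m r - RHS p m r f).coeff j ∈ O p := by
  have hm0 : 0 < m := Nat.pos_of_ne_zero fun h => hm (h ▸ dvd_zero _)
  obtain ⟨s, hs⟩ := exists_s (p := p) (r := r) hm
  have hc : ∀ k < p, cc m r k ∈ O p := fun k hk => by
    rw [cc_eq hs]; exact Aff_mem (aff_cs hm _ hk) s
  rw [coeff_sub, SS_coeff, RHS, coeff_C_mul, TT_coeff p hm0]
  refine sub_mem ?_ (mul_mem (mul_mem (pow_mem (neg_mem (one_mem _)) _) (zpow_mem _))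
    (sum_mem fun k hk => mul_mem (hc k (mem_range.1 hk))
      (mul_mem (pow_mem (pow_mem' _) _) (ek_mem hm (mem_range.1 hk)))))
  split_ifs with hj
  · exact hc j hj
  · exact zero_mem _

theorem main_iff {m r : ℕ} (hp2 : p ≠ 2) (hm : ¬ p ∣ m) {s : ℤ}
    (hs : (p : ℤ) * s = r + m * res p m r) (f : ℤ) :
    StarCong p m r f ↔ f = gexp p m (res p m r) s := by
  rw [← star_iff hp2 hm hs]
  exact ⟨fun h => XI_of_rat (diff_mem hm f) h, fun h => rat_of_XI h⟩

end

/-- **Answer to Q1.** For an odd prime `p` and positive integers `r < m` with `p ≡ ±1 (mod m)`,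
exactly one integer `f` makes `(*)` hold, and it is `r(m-r)(1-p^2)/(2m)`. -/
theorem result (p m r : ℕ) (hp : p.Prime) (hp2 : p ≠ 2) (hr : 1 ≤ r) (hrm : r < m)
    (hpm : (p : ℤ) ≡ 1 [ZMOD m] ∨ (p : ℤ) ≡ -1 [ZMOD m]) :
    (∃! f : ℤ, StarCong p m r f) ∧
    ∀ f : ℤ, StarCong p m r f →
      (f : ℚ) = (r : ℚ) * ((m : ℚ) - r) * (1 - (p : ℚ) ^ 2) / (2 * m) := by
  have : Fact p.Prime := ⟨hp⟩
  have hnd : ¬ p ∣ m := by
    intro hd
    have h1 : (p : ℤ) ∣ (m : ℤ) := by exact_mod_cast hd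
    rcases hpm with h | h
    · have h2 : (p : ℤ) ∣ 1 := by
        have h3 : (p : ℤ) ∣ 1 - p := h1.trans h.dvd
        have := dvd_add h3 (dvd_refl (p : ℤ))
        simpa using this
      have := Int.eq_one_of_dvd_one (by positivity) h2
      have : p = 1 := by exact_mod_cast this
      exact hp.one_lt.ne' this
    · have h2 : (p : ℤ) ∣ 1 := by
        have h3 : (p : ℤ) ∣ -1 - p := h1.trans h.dvd
        have := dvd_add h3 (dvd_refl (p : ℤ))
        simpa using this
      have := Int.eq_one_of_dvd_one (by positivity) h2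
      have : p = 1 := by exact_mod_cast this
      exact hp.one_lt.ne' this
  obtain ⟨s, hs⟩ := exists_s (p := p) (r := r) hnd
  refine ⟨⟨gexp p m (res p m r) s, (main_iff hp2 hnd hs _).2 rfl,
    fun f hf => (main_iff hp2 hnd hs f).1 hf⟩, fun f hf => ?_⟩
  have hf' := (main_iff hp2 hnd hs f).1 hf
  have h2 := gexp_two hp2 hs
  rw [← hf'] at h2
  set a := res p m r with ha
  have hap : a < p := res_lt m r
  have hm0 : (0 : ℤ) < m := by exact_mod_cast (by omega : 0 < m)
  have hp0 : (0 : ℤ) < p := by exact_mod_cast hp.pos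
  have hrm' : (r : ℤ) < m := by exact_mod_cast hrm
  have hr' : (1 : ℤ) ≤ r := by exact_mod_cast hr
  have hap' : (a : ℤ) < p := by exact_mod_cast hap
  -- the range of `s`
  have ha0 : (0 : ℤ) ≤ a := by positivity
  have hs1 : 0 < s := by
    by_contra hneg
    push Not at hneg
    nlinarith [mul_nonneg hm0.le ha0]
  have hs2 : s < m := by
    by_contra hge
    push Not at hge
    nlinarith
  -- `p s ≡ r (mod m)` determines `s`
  have key : (m : ℤ) ∣ p * s - r := ⟨a, by rw [hs]; ring⟩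
  have hma : (m : ℤ) * a = p * s - r := by rw [hs]; ring
  have hmQ : (m : ℚ) ≠ 0 := by
    have : (m : ℤ) ≠ 0 := hm0.ne'
    exact_mod_cast this
  have hmaQ : (m : ℚ) * a = p * s - r := by exact_mod_cast hma
  have h2Q : 2 * (f : ℚ) = -((m : ℚ) * a * (a + 1) + (r + m * a) * (p - 1 - 2 * a)) := by
    exact_mod_cast h2
  rcases hpm with h | h
  · have h3 : (m : ℤ) ∣ s - r := by
      have h4 : (m : ℤ) ∣ 1 - p := h.dvd
      have h5 := dvd_add key (h4.mul_right s)
      have : p * s - r + (1 - p) * s = s - r := by ring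
      rwa [this] at h5
    have h6 : s = r := by
      obtain ⟨c, hc⟩ := h3
      have hc0 : c = 0 := by
        have l1 : (m : ℤ) * c < m * 1 := by linarith
        have l2 : (m : ℤ) * (-1) < m * c := by linarith
        have := lt_of_mul_lt_mul_left l1 hm0.le
        have := lt_of_mul_lt_mul_left l2 hm0.le
        omega
      rw [hc0, mul_zero] at hc
      linarith
    rw [h6] at hmaQ
    rw [eq_div_iff (by positivity)]
    push_cast at hmaQ h2Q
    have e1 : (a : ℚ) = (p * r - r) / m := by field_simp; linarith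
    rw [e1] at h2Q
    have e2 : (f : ℚ) = -((m : ℚ) * ((p * r - r) / m) * ((p * r - r) / m + 1) +
        (r + m * ((p * r - r) / m)) * (p - 1 - 2 * ((p * r - r) / m))) / 2 := by linarith
    rw [e2]
    field_simp
    ring
  · have h3 : (m : ℤ) ∣ s + r := by
      have h4 : (m : ℤ) ∣ -1 - p := h.dvd
      have h5 := dvd_add key (h4.mul_right s)
      have e : p * s - r + (-1 - p) * s = -(s + r) := by ring
      rw [e] at h5
      exact (dvd_neg.1 h5)
    have h6 : s = m - r := by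
      obtain ⟨c, hc⟩ := h3
      have hc0 : c = 1 := by
        have l1 : (m : ℤ) * c < m * 2 := by linarith
        have l2 : (m : ℤ) * 0 < m * c := by linarith
        have := lt_of_mul_lt_mul_left l1 hm0.le
        have := lt_of_mul_lt_mul_left l2 hm0.le
        omega
      rw [hc0, mul_one] at hc
      linarith
    rw [h6] at hmaQ
    rw [eq_div_iff (by positivity)]
    push_cast at hmaQ h2Q
    have e1 : (a : ℚ) = (p * (m - r) - r) / m := by field_simp; linarith
    rw [e1] at h2Q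
    have e2 : (f : ℚ) = -((m : ℚ) * ((p * (m - r) - r) / m) * ((p * (m - r) - r) / m + 1) +
        (r + m * ((p * (m - r) - r) / m)) * (p - 1 - 2 * ((p * (m - r) - r) / m))) / 2 := by
      linarith
    rw [e2]
    field_simp
    ring

end Pool.Agent.Results.MP_594717_nt.ExponentFormula
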